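import Pool.Agent.Q279.AP.Main

set_option autoImplicit false

namespace Pool.Agent.Results.MP_2869d0_nt.AperySums

open Finset

/-- `A_k(x) = ∑_j C(k, j)² C(k + j, j)² x^j`. -/
noncomputable def A {p : ℕ} [Fact p.Prime] (k : ℕ) (x : ℚ_[p]) : ℚ_[p] :=
  ∑ j ∈ range (k + 1), (k.choose j : ℚ_[p]) ^ 2 * ((k + j).choose j : ℚ_[p]) ^ 2 * x ^ j

/-- Q1: for every prime `p`, every `n ≥ 1` and every `p`-adic integer `x`,
`ν_p ((1/n) ∑_{k < n} (2k+1) (-1)^k A_k(x)) ≥ min (ν_p n, ν_p (4x - 1))`. -/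
theorem result (p : ℕ) [Fact p.Prime] (n : ℕ) (hn : 1 ≤ n) (x : ℤ_[p]) :
    min (Padic.addValuation (n : ℚ_[p])) (Padic.addValuation (4 * (x : ℚ_[p]) - 1)) ≤
      Padic.addValuation ((1 / (n : ℚ_[p])) *
        ∑ k ∈ range n, (2 * (k : ℚ_[p]) + 1) * (-1) ^ k * A k (x : ℚ_[p])) :=
  Q279.AP.mainA n hn x

end Pool.Agent.Results.MP_2869d0_nt.AperySums
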